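import Pool.Agent.Y998.CN.Defs

/-! CN-PR: the trace factorises over blocks. -/

set_option autoImplicit false

namespace Pool.Agent.Y154.CN

open Finset Equiv Pool.Agent.Y998.ST Pool.Agent.Y998.CN

section gen

variable {V : Type} [Fintype V] [DecidableEq V]

theorem mul_ham (q : ℕ) (J : V → V → ℝ) (X : Matrix (V → Fin q) (V → Fin q) ℝ)
    (c c' : V → Fin q) :
    (X * (-(ham q J))) c c' = ∑ x, ∑ y, J x y / 2 * (X c (c' ∘ swap x y) - X c c') := by
  rw [Matrix.mul_apply]
  have h1 : ∀ c'', X c c'' * (-(ham q J)) c'' c' = ∑ x, ∑ y, (J x y / 2 *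
      ((if c'' = c' ∘ swap x y then X c c'' else 0) - if c'' = c' then X c c'' else 0)) := by
    intro c''
    show X c c'' * (-(∑ x, ∑ y, J x y / 2 *
      ((if c' = c'' then 1 else 0) - (if c' = c'' ∘ swap x y then 1 else 0)))) = _
    rw [mul_neg, Finset.mul_sum, ← Finset.sum_neg_distrib]
    refine Finset.sum_congr rfl fun x _ => ?_
    rw [Finset.mul_sum, ← Finset.sum_neg_distrib]
    refine Finset.sum_congr rfl fun y _ => ?_
    have e1 : (c' = c'' ∘ swap x y) ↔ (c'' = c' ∘ swap x y) := by
      constructor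
      · rintro rfl
        funext v
        simp
      · rintro rfl
        funext v
        simp
    have e2 : (c' = c'') ↔ (c'' = c') := eq_comm
    simp only [e1, e2]
    split_ifs <;> ring
  rw [Finset.sum_congr rfl fun c'' _ => h1 c'', Finset.sum_comm]
  refine Finset.sum_congr rfl fun x _ => ?_
  rw [Finset.sum_comm]
  refine Finset.sum_congr rfl fun y _ => ?_
  rw [← Finset.mul_sum, Finset.sum_sub_distrib, Finset.sum_ite_eq', Finset.sum_ite_eq',
    if_pos (mem_univ _), if_pos (mem_univ _)]

end gen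

variable {V I : Type} (b : V → I)

/-- restriction to a block -/
def res {q : ℕ} (c : V → Fin q) (i : I) : {v : V // b v = i} → Fin q := fun v => c v

/-- colourings are families of colourings of the blocks -/
def blk (q : ℕ) : (V → Fin q) ≃ ((i : I) → {v : V // b v = i} → Fin q) where
  toFun c := fun i => res b c i
  invFun p := fun v => p (b v) ⟨v, rfl⟩
  left_inv _ := rfl
  right_inv p := by
    funext i v
    obtain ⟨v, rfl⟩ := v
    rfl

variable [Fintype V] [DecidableEq V] [Fintype I] [DecidableEq I]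

theorem fib (G : V → ℝ) : ∑ v, G v = ∑ i, ∑ v : {v : V // b v = i}, G v := by
  rw [← (Equiv.sigmaFiberEquiv b).sum_comp G, Fintype.sum_sigma]
  rfl

theorem fib2 (F : V → V → ℝ) (h : ∀ x y, b x ≠ b y → F x y = 0) :
    ∑ x, ∑ y, F x y = ∑ i, ∑ x : {v : V // b v = i}, ∑ y : {v : V // b v = i}, F x y := by
  rw [fib b]
  refine Finset.sum_congr rfl fun i _ => Finset.sum_congr rfl fun x _ => ?_
  rw [fib b, Finset.sum_eq_single i]
  · intro j _ hj
    refine Finset.sum_eq_zero fun y _ => h _ _ ?_
    rw [x.2, y.2]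
    exact hj.symm
  · intro h
    exact absurd (mem_univ i) h

omit [Fintype V] [Fintype I] [DecidableEq I] in
theorem res_ne {q : ℕ} (c : V → Fin q) {i j : I} (hij : j ≠ i) (x y : {v : V // b v = i}) :
    res b (c ∘ swap (x : V) y) j = res b c j := by
  funext v
  show c (swap (x : V) y v) = c v
  rw [swap_apply_of_ne_of_ne]
  · intro h
    apply hij
    rw [← v.2, h, x.2]
  · intro h
    apply hij
    rw [← v.2, h, y.2]

omit [Fintype V] [Fintype I] [DecidableEq I] in
theorem res_eq {q : ℕ} (c : V → Fin q) {i : I} (x y : {v : V // b v = i}) :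
    res b (c ∘ swap (x : V) y) i = res b c i ∘ swap x y := by
  funext v
  show c (swap (x : V) y v) = c ((swap x y v : {v : V // b v = i}) : V)
  have h : swap (x : V) y v = ((swap x y v : {v : V // b v = i}) : V) := by
    rw [swap_apply_def, swap_apply_def]
    by_cases h1 : v = x
    · rw [if_pos h1, if_pos (by rw [h1])]
    · rw [if_neg h1, if_neg (fun h => h1 (Subtype.ext h))]
      by_cases h2 : v = y
      · rw [if_pos h2, if_pos (by rw [h2])]
      · rw [if_neg h2, if_neg (fun h => h2 (Subtype.ext h))]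
  rw [h]

/-- the product kernel -/
noncomputable def YY (q : ℕ) (J : V → V → ℝ) (t : ℝ) : Matrix (V → Fin q) (V → Fin q) ℝ :=
  fun c c' => ∏ i, E (-(ham q (fun x y : {v : V // b v = i} => J x y))) t (res b c i) (res b c' i)

theorem YY_zero (q : ℕ) (J : V → V → ℝ) : YY b q J 0 = 1 := by
  ext c c'
  rw [Matrix.one_apply]
  unfold YY
  simp only [E_zero]
  by_cases h : c = c'
  · rw [if_pos h, h]
    refine Finset.prod_eq_one fun i _ => Matrix.one_apply_eq _
  · rw [if_neg h]
    obtain ⟨v, hv⟩ := Function.ne_iff.1 h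
    refine Finset.prod_eq_zero (mem_univ (b v)) (Matrix.one_apply_ne ?_)
    intro h1
    exact hv (congrFun h1 ⟨v, rfl⟩)

theorem YY_deriv (q : ℕ) (J : V → V → ℝ) (hJ : ∀ x y, b x ≠ b y → J x y = 0) (t : ℝ)
    (c c' : V → Fin q) :
    HasDerivAt (fun u => YY b q J u c c') ((YY b q J t * (-(ham q J))) c c') t := by
  have h1 := HasDerivAt.fun_finsetProd (u := Finset.univ) (fun i (_ : i ∈ Finset.univ) =>
    E_deriv' (-(ham q (fun x y : {v : V // b v = i} => J x y))) t (res b c i) (res b c' i))
  refine h1.congr_deriv ?_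
  rw [mul_ham, fib2 b _ (fun x y h => by rw [hJ x y h]; ring)]
  refine Finset.sum_congr rfl fun i _ => ?_
  rw [mul_ham, smul_eq_mul, Finset.mul_sum]
  refine Finset.sum_congr rfl fun x _ => ?_
  rw [Finset.mul_sum]
  refine Finset.sum_congr rfl fun y _ => ?_
  have e1 : YY b q J t c (c' ∘ swap (x : V) y) =
      E (-(ham q (fun x y : {v : V // b v = i} => J x y))) t (res b c i) (res b c' i ∘ swap x y) *
      ∏ j ∈ Finset.univ.erase i, E (-(ham q (fun x y : {v : V // b v = j} => J x y))) t
        (res b c j) (res b c' j) := by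
    unfold YY
    rw [← Finset.mul_prod_erase Finset.univ _ (mem_univ i), res_eq]
    congr 1
    refine Finset.prod_congr rfl fun j hj => ?_
    rw [res_ne b c' (Finset.ne_of_mem_erase hj)]
  have e2 : YY b q J t c c' =
      E (-(ham q (fun x y : {v : V // b v = i} => J x y))) t (res b c i) (res b c' i) *
      ∏ j ∈ Finset.univ.erase i, E (-(ham q (fun x y : {v : V // b v = j} => J x y))) t
        (res b c j) (res b c' j) := by
    unfold YY
    rw [← Finset.mul_prod_erase Finset.univ _ (mem_univ i)]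
  rw [e1, e2]
  ring

theorem t_PR : S_PR := by
  intro V I _ _ _ _ b J q t hJ
  unfold Zf
  rw [← eq_E (fun u c c' => YY_deriv b q J hJ u c c') (YY_zero b q J) t]
  simp only [Matrix.trace, Matrix.diag_apply]
  rw [Finset.prod_univ_sum, Fintype.piFinset_univ, ← (blk b q).sum_comp]
  rfl

end Pool.Agent.Y154.CN
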